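import Mathlib
import Pool.Agent.W_MP_628faf_lc.Char

/-!
# The Gray–Wyner profile of random incident pairs is an incidence exponent

The definitions are in `Pool/Agent/W_MP_628faf_lc/Defs.lean`.
-/

namespace Pool.Agent.Results.MP_628faf_lc.ProfileIsIncidence

open GW628

open Classical in
/-- A triple `(a, b, c)` belongs to the normalised profile iff, with logarithmic precision in the
exponents, for all large `n` some `2^(an)` lines and `2^(bn)` points of the affine plane over
`GF(2^n)` have `2^((3-c)n)` incidences. -/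
theorem result (U : List Bool → List Bool →. List Bool) (hU : Optimal U)
    (θ : (n : ℕ) → GaloisField 2 n) (hθ : IsCoding θ) (a b c : ℝ) :
    InProfile U θ a b c ↔ ∃ C : ℝ, ∀ᶠ n : ℕ in Filter.atTop,
      ∃ A B : Finset (GaloisField 2 n × GaloisField 2 n),
        (A.card : ℝ) ≤ (2 : ℝ) ^ (a * n + C * Real.logb 2 n) ∧
        (B.card : ℝ) ≤ (2 : ℝ) ^ (b * n + C * Real.logb 2 n) ∧
        (2 : ℝ) ^ ((3 - c) * n - C * Real.logb 2 n) ≤ inc A B :=
  inProfile_iff hU hθ a b c

end Pool.Agent.Results.MP_628faf_lc.ProfileIsIncidence
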