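import Mathlib
import Pool.Agent.W_MP_628faf_lc.Main

/-!
# The normalised Gray–Wyner profile of a random incident line–point pair over `GF(2^n)`

The definitions are in `Pool/Agent/W_MP_628faf_lc/Defs.lean`.
-/

namespace Pool.Agent.Results.MP_628faf_lc.ProfileOutsideST

open GW628

/-- Exact determination of the profile for `b ≥ 2a`, `a ≥ 2b` or `a + b ≥ 3`, and two bounds in
the remaining range. The first two conjuncts say that optimal description methods and computable
codings of the fields exist. -/
theorem result :
    (∃ U, Optimal U) ∧ (∃ θ, IsCoding θ) ∧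
    ∀ U, Optimal U → ∀ θ, IsCoding θ → ∀ a b c : ℝ,
      ((2 * a ≤ b ∨ 2 * b ≤ a ∨ 3 ≤ a + b) →
        (InProfile U θ a b c ↔ 0 ≤ a ∧ 0 ≤ b ∧ 0 ≤ c ∧ 2 ≤ a + c ∧ 2 ≤ b + c ∧
          3 ≤ c + max (max a b) (a + b - 1))) ∧
      ((b < 2 * a ∧ a < 2 * b ∧ a + b < 3) →
        (InProfile U θ a b c → 3 ≤ c + min (min (a + b / 2) (b + a / 2)) ((1 + a + b) / 2)) ∧
        (3 ≤ c + 2 * (a + b) / 3 → InProfile U θ a b c)) := by
  refine ⟨exists_optimal, exists_isCoding, ?_⟩
  intro U hU θ hθ a b c
  constructor
  · intro hr
    constructor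
    · intro h
      obtain ⟨h1, h2, h3, h4, h5, -, h7, h8, h9⟩ := outer hU hθ h
      refine ⟨h1, h2, h3, h4, h5, ?_⟩
      rcases hr with hr | hr | hr
      · rw [max_eq_left (by linarith)] at h7
        have := le_max_right a b
        have := le_max_left (max a b) (a + b - 1)
        linarith
      · rw [max_eq_left (by linarith)] at h8
        have := le_max_left a b
        have := le_max_left (max a b) (a + b - 1)
        linarith
      · rw [max_eq_left (by linarith)] at h9
        have := le_max_right (max a b) (a + b - 1)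
        linarith
    · rintro ⟨h1, h2, h3, h4, h5, h6⟩
      refine inner hU hθ h1 h2 h3 h4 h5 (h6.trans ?_)
      have : max (max a b) (a + b - 1) ≤
          max (max a b) (max (a + b - 1) (2 * (a + b) / 3)) :=
        max_le_max le_rfl (le_max_left _ _)
      linarith
  · rintro ⟨hr1, hr2, hr3⟩
    constructor
    · intro h
      obtain ⟨h1, h2, h3, h4, h5, -, h7, h8, h9⟩ := outer hU hθ h
      rw [max_eq_right (by linarith)] at h7 h8 h9
      rw [← sub_le_iff_le_add', le_min_iff, le_min_iff]
      exact ⟨⟨by linarith, by linarith⟩, by linarith⟩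
    · intro h
      refine inner hU hθ (by linarith) (by linarith) (by linarith) (by linarith) (by linarith) ?_
      have : 2 * (a + b) / 3 ≤ max (max a b) (max (a + b - 1) (2 * (a + b) / 3)) :=
        (le_max_right _ _).trans (le_max_right _ _)
      linarith

end Pool.Agent.Results.MP_628faf_lc.ProfileOutsideST
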